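import Pool.Agent.Helper93.RC.Spec

set_option autoImplicit false

/-!
# Module B: ladders of walls give Morse rays
-/

namespace Pool.Agent.Helper83.RC

open Pool.Agent.Helper93.RC

variable {X H : Type*} (W : WallStr X H)

/-- `β 0, …, β n` is a geodesic -/
def Geo (n : ℕ) (β : ℕ → X) : Prop :=
  ∀ i j, i ≤ j → j ≤ n → W.G.dist (β i) (β j) = j - i

variable {W}

theorem bool_eq {a b c : Bool} (h1 : a ≠ b) (h2 : c ≠ b) : a = c := by
  revert a b c; decide

theorem bool_ne {a b c : Bool} (h1 : a ≠ b) (h2 : b ≠ c) : a = c := by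
  revert a b c; decide

/-- no wall separates an intermediate vertex from both end points -/
theorem btw {x y z : X} (h : W.G.dist x z = W.G.dist x y + W.G.dist y z) {k : H}
    (h1 : W.side k x ≠ W.side k y) (h2 : W.side k y ≠ W.side k z) : False := by
  have hsub : {h | W.side h x ≠ W.side h z} ⊆
      ({h | W.side h x ≠ W.side h y} ∪ {h | W.side h y ≠ W.side h z}) \ {k} := by
    intro l hl
    refine ⟨?_, ?_⟩
    · by_contra hc
      simp only [Set.mem_union, Set.mem_ofPred_eq, not_or, not_not] at hc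
      exact hl (hc.1.trans hc.2)
    · intro hlk
      rw [Set.mem_singleton_iff] at hlk
      subst hlk
      exact hl (bool_ne h1 h2)
  have hfin : ({h | W.side h x ≠ W.side h y} ∪ {h | W.side h y ≠ W.side h z}).Finite :=
    (W.fin x y).union (W.fin y z)
  have hmem : k ∈ {h | W.side h x ≠ W.side h y} ∪ {h | W.side h y ≠ W.side h z} := Or.inl h1
  have e1 := Set.ncard_le_ncard hsub (hfin.subset Set.sdiff_subset)
  have e2 := Set.ncard_sdiff_singleton_add_one hmem hfin
  have e3 := Set.ncard_union_le {h | W.side h x ≠ W.side h y} {h | W.side h y ≠ W.side h z}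
  rw [← W.dist_eq, ← W.dist_eq] at e3
  rw [← W.dist_eq] at e1
  omega

theorem Geo.btw {n : ℕ} {β : ℕ → X} (hβ : Geo W n β) {i j l : ℕ} (hij : i ≤ j) (hjl : j ≤ l)
    (hl : l ≤ n) {k : H} (h1 : W.side k (β i) ≠ W.side k (β j))
    (h2 : W.side k (β j) ≠ W.side k (β l)) : False := by
  refine RC.btw ?_ h1 h2
  rw [hβ i l (hij.trans hjl) hl, hβ i j hij (hjl.trans hl), hβ j l hjl hl]
  omega

/-- only one wall separates adjacent vertices -/
theorem one_wall {x x' : X} (h : W.G.Adj x x') {k l : H} (hk : W.side k x ≠ W.side k x')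
    (hkl : l ≠ k) : W.side l x = W.side l x' := by
  by_contra hl
  have h1 : W.G.dist x x' = 1 := SimpleGraph.dist_eq_one_iff_adj.mpr h
  rw [W.dist_eq, Set.ncard_eq_one] at h1
  obtain ⟨a, ha⟩ := h1
  have e1 : k ∈ ({a} : Set H) := by rw [← ha]; exact hk
  have e2 : l ∈ ({a} : Set H) := by rw [← ha]; exact hl
  rw [Set.mem_singleton_iff] at e1 e2
  exact hkl (e2.trans e1.symm)

theorem Geo.adj {n : ℕ} {β : ℕ → X} (hβ : Geo W n β) {i : ℕ} (hi : i < n) :
    W.G.Adj (β i) (β (i + 1)) := by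
  rw [← SimpleGraph.dist_eq_one_iff_adj, hβ i (i + 1) (by omega) (by omega)]
  omega

/-- the edge where a wall is crossed -/
theorem cross_edge (β : ℕ → X) (k : H) {i j : ℕ} (hij : i ≤ j)
    (h : W.side k (β i) ≠ W.side k (β j)) :
    ∃ l, i ≤ l ∧ l < j ∧ W.side k (β l) = W.side k (β i) ∧ W.side k (β (l + 1)) = W.side k (β j) ∧
      W.side k (β l) ≠ W.side k (β (l + 1)) := by
  induction j, hij using Nat.le_induction with
  | base => exact absurd rfl h
  | succ j hij ih =>
    by_cases h1 : W.side k (β i) = W.side k (β j)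
    · refine ⟨j, hij, by omega, h1.symm, rfl, ?_⟩
      rw [← h1]
      exact h
    · obtain ⟨l, h2, h3, h4, h5, h6⟩ := ih h1
      refine ⟨l, h2, by omega, h4, ?_, h6⟩
      rw [h5]
      exact bool_eq (Ne.symm h1) (Ne.symm h)

theorem exists_geo (x y : X) : ∃ β : ℕ → X, β 0 = x ∧ β (W.G.dist x y) = y ∧
    Geo W (W.G.dist x y) β := by
  obtain ⟨p, hp⟩ := W.conn.exists_walk_length_eq_dist x y
  have hstep : ∀ i j, i ≤ j → W.G.dist (p.getVert i) (p.getVert j) ≤ j - i := by
    intro i j hij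
    induction j, hij using Nat.le_induction with
    | base => simp
    | succ j hij ih =>
      have h1 := W.conn.dist_triangle (u := p.getVert i) (v := p.getVert j)
        (w := p.getVert (j + 1))
      have h2 : W.G.dist (p.getVert j) (p.getVert (j + 1)) ≤ 1 := by
        by_cases hj : j < p.length
        · exact (SimpleGraph.dist_eq_one_iff_adj.mpr (p.adj_getVert_succ hj)).le
        · rw [p.getVert_of_length_le (by omega), p.getVert_of_length_le (by omega)]
          simp
      omega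
  refine ⟨p.getVert, p.getVert_zero, ?_, ?_⟩
  · rw [← hp]; exact p.getVert_length
  · intro i j hij hj
    have h1 := hstep 0 i (by omega)
    have h2 := hstep i j hij
    have h3 := hstep j (W.G.dist x y) hj
    have h4 := W.conn.dist_triangle (u := p.getVert 0) (v := p.getVert i)
      (w := p.getVert (W.G.dist x y))
    have h5 := W.conn.dist_triangle (u := p.getVert i) (v := p.getVert j)
      (w := p.getVert (W.G.dist x y))
    have h6 : p.getVert (W.G.dist x y) = y := by rw [← hp]; exact p.getVert_length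
    rw [h6] at h4 h5 h3
    rw [p.getVert_zero] at h4 h1
    omega

/-- a wall `h` not crossing `k` has constant side on the side of `k` away from `h` -/
theorem quadrant {h k : H} (hk : k ≠ h) (hc : ¬ W.cr h k) {x x' : X} (hx : W.G.Adj x x')
    (hs : W.side h x ≠ W.side h x') {y z : X} (hy : W.side k y ≠ W.side k x)
    (hz : W.side k z ≠ W.side k x) : W.side h y = W.side h z := by
  by_contra hne
  obtain ⟨β, h0, h1, hβ⟩ := exists_geo (W := W) y z
  have hne' : W.side h (β 0) ≠ W.side h (β (W.G.dist y z)) := by rw [h0, h1]; exact hne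
  obtain ⟨l, -, h3, -, -, h6⟩ := cross_edge β h (Nat.zero_le _) hne'
  by_cases hu : W.side k (β l) = W.side k x
  · refine hβ.btw (Nat.zero_le l) h3.le le_rfl (k := k) ?_ ?_
    · rw [h0, hu]; exact hy
    · rw [h1, hu]; exact hz.symm
  · exact hc (W.carrier h k x x' (β l) (β (l + 1)) hx hs (hβ.adj h3) h6 hk (Ne.symm hu))

section ladder

variable {D M : ℕ} {α : ℕ → X} {h : ℕ → H} {pos : ℕ → ℕ}

theorem ageo (hL : Ladder W D M α h pos) (n : ℕ) : Geo W n α := by
  intro i j hij _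
  have := hL.geod i j
  rw [abs_sub_comm, abs_of_nonneg (by omega)] at this
  omega

theorem L1 (hL : Ladder W D M α h pos) {j t : ℕ} (ht : t ≤ pos j) :
    W.side (h j) (α t) = W.side (h j) (α 0) := by
  by_contra hc
  have hg := ageo hL (pos j + 1)
  by_cases h1 : W.side (h j) (α t) = W.side (h j) (α (pos j))
  · refine hg.btw (Nat.zero_le t) (by omega : t ≤ pos j + 1) le_rfl (k := h j) (Ne.symm hc) ?_
    rw [h1]
    exact hL.cross j
  · exact hg.btw (Nat.zero_le t) ht (by omega) (k := h j) (Ne.symm hc) h1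

theorem L2 (hL : Ladder W D M α h pos) {j t : ℕ} (ht : pos j < t) :
    W.side (h j) (α t) ≠ W.side (h j) (α 0) := by
  intro hc
  have hg := ageo hL t
  have h1 := L1 hL (le_refl (pos j))
  have h2 : W.side (h j) (α 0) ≠ W.side (h j) (α (pos j + 1)) := by
    rw [← h1]
    exact hL.cross j
  exact hg.btw (Nat.zero_le (pos j + 1)) ht le_rfl h2 (by rw [hc]; exact h2.symm)

theorem h_inj (hL : Ladder W D M α h pos) {i j : ℕ} (hij : i < j) : h i ≠ h j := by
  intro he
  have h1 := L2 hL (hL.mono hij)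
  have h2 := L1 hL (le_refl (pos j))
  rw [he] at h1
  exact h1 h2

theorem h_ne (hL : Ladder W D M α h pos) {i j : ℕ} (hij : i ≠ j) : h i ≠ h j := by
  rcases Nat.lt_or_gt_of_ne hij with h1 | h1
  · exact h_inj hL h1
  · exact (h_inj hL h1).symm

/-- `y` is beyond the wall `h j` -/
def Bey (W : WallStr X H) (α : ℕ → X) (h : ℕ → H) (j : ℕ) (y : X) : Prop :=
  W.side (h j) y ≠ W.side (h j) (α 0)

theorem aadj (hL : Ladder W D M α h pos) (t : ℕ) : W.G.Adj (α t) (α (t + 1)) :=
  (ageo hL (t + 1)).adj (by omega)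

theorem nest (hL : Ladder W D M α h pos) {i j : ℕ} (hij : i ≤ j) {y : X} (hy : Bey W α h j y) :
    Bey W α h i y := by
  rcases hij.eq_or_lt with rfl | hlt
  · exact hy
  · have hp := hL.mono hlt
    have e1 : W.side (h j) (α (pos i)) = W.side (h j) (α 0) := L1 hL hp.le
    have e2 : W.side (h j) (α (pos j + 1)) ≠ W.side (h j) (α (pos i)) := by
      rw [e1]
      exact L2 hL (Nat.lt_succ_self _)
    have e3 : W.side (h j) y ≠ W.side (h j) (α (pos i)) := by
      rw [e1]
      exact hy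
    have e4 := quadrant (h_ne hL (Ne.symm hlt.ne)) (hL.ncr i j hlt.ne) (aadj hL (pos i))
      (hL.cross i) e3 e2
    unfold Bey
    rw [e4]
    exact L2 hL (by omega)

/-- the quadruple lemma -/
theorem quad (hL : Ladder W D M α h pos) {n : ℕ} {β : ℕ → X} (hβ : Geo W n β) {j : ℕ}
    (h0 : ¬ Bey W α h j (β 0)) (hn : Bey W α h (j + 3) (β n)) :
    ∃ i ≤ n, W.G.dist (β i) (α (pos (j + 1) + 1)) ≤ 2 * M + 3 * D := by
  have p1 := hL.mono (show j < j + 1 by omega)
  have p2 := hL.mono (show j + 1 < j + 2 by omega)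
  have p3 := hL.mono (show j + 2 < j + 3 by omega)
  have b0 : ∀ e, j ≤ e → ¬ Bey W α h e (β 0) := fun e he hb => h0 (nest hL he hb)
  have bn : ∀ e, e ≤ j + 3 → Bey W α h e (β n) := fun e he => nest hL he hn
  have hcr : ∀ e, j ≤ e → e ≤ j + 3 → W.side (h e) (β 0) ≠ W.side (h e) (β n) := by
    intro e he he'
    have e1 : W.side (h e) (β 0) = W.side (h e) (α 0) := by
      by_contra hc
      exact b0 e he hc
    rw [e1]
    exact (bn e he').symm
  obtain ⟨l, -, hl1, hl2, hl3, hl4⟩ := cross_edge β (h (j + 1)) (Nat.zero_le n)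
    (hcr (j + 1) (by omega) (by omega))
  have hadj := hβ.adj hl1
  -- the point `p = β (l + 1)`
  have q1 : Bey W α h (j + 1) (β (l + 1)) := by
    unfold Bey
    rw [hl3]
    exact bn _ (by omega)
  have q0 : Bey W α h j (β (l + 1)) := nest hL (by omega) q1
  have q2 : ¬ Bey W α h (j + 2) (β (l + 1)) := by
    have e1 : ¬ Bey W α h (j + 1) (β l) := by
      unfold Bey
      rw [hl2]
      exact b0 _ (by omega)
    have e2 : ¬ Bey W α h (j + 2) (β l) := fun hb => e1 (nest hL (by omega) hb)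
    unfold Bey at e2 ⊢
    rw [← one_wall hadj hl4 (h_ne hL (by omega : j + 2 ≠ j + 1))]
    exact e2
  have q3 : ¬ Bey W α h (j + 3) (β (l + 1)) := fun hb => q2 (nest hL (by omega) hb)
  -- the point `a`
  have a1 : Bey W α h (j + 1) (α (pos (j + 1) + 1)) := L2 hL (by omega)
  have a0 : Bey W α h j (α (pos (j + 1) + 1)) := L2 hL (by omega)
  have a2 : ¬ Bey W α h (j + 2) (α (pos (j + 1) + 1)) := fun hb => hb (L1 hL (by omega))
  have a3 : ¬ Bey W α h (j + 3) (α (pos (j + 1) + 1)) := fun hb => hb (L1 hL (by omega))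
  refine ⟨l + 1, hl1, ?_⟩
  have hsub : {k | W.side k (β (l + 1)) ≠ W.side k (α (pos (j + 1) + 1))} ⊆
      ({k | W.cr (h j) k ∧ W.cr (h (j + 1)) k} ∪
        {k | W.cr (h (j + 2)) k ∧ W.cr (h (j + 2 + 1)) k}) ∪
        {k | W.side k (α (pos j)) ≠ W.side k (α (pos (j + 3)))} := by
    intro k hk
    by_contra hcon
    simp only [Set.mem_union, Set.mem_ofPred_eq, not_or, not_not] at hcon hk
    obtain ⟨⟨hc1, hc2⟩, hc3⟩ := hcon
    -- sides on `α` are constant between `pos j` and `pos (j+3)`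
    have hconst : ∀ t, pos j ≤ t → t ≤ pos (j + 3) → W.side k (α t) = W.side k (α (pos j)) := by
      intro t ht ht'
      by_contra hne
      refine (ageo hL (pos (j + 3))).btw ht ht' le_rfl (k := k) (Ne.symm hne) ?_
      rw [← hc3]
      exact hne
    have hka := hconst (pos (j + 1) + 1) (by omega) (by omega)
    have g1 : ∃ e, j ≤ e ∧ e ≤ j + 1 ∧ ¬ W.cr (h e) k := by
      by_cases hh : W.cr (h j) k
      · exact ⟨j + 1, by omega, le_rfl, fun h' => hc1 ⟨hh, h'⟩⟩
      · exact ⟨j, le_rfl, by omega, hh⟩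
    have g2 : ∃ e, j + 2 ≤ e ∧ e ≤ j + 3 ∧ ¬ W.cr (h e) k := by
      by_cases hh : W.cr (h (j + 2)) k
      · exact ⟨j + 3, by omega, le_rfl, fun h' => hc2 ⟨hh, h'⟩⟩
      · exact ⟨j + 2, le_rfl, by omega, hh⟩
    obtain ⟨e1, he1, he1', hn1⟩ := g1
    obtain ⟨e2, he2, he2', hn2⟩ := g2
    have hpos1 : pos j ≤ pos e1 ∧ pos e1 ≤ pos (j + 3) :=
      ⟨hL.mono.monotone he1, hL.mono.monotone (by omega)⟩
    have hpos2 : pos j ≤ pos e2 ∧ pos e2 ≤ pos (j + 3) :=
      ⟨hL.mono.monotone (by omega), hL.mono.monotone he2'⟩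
    have s1 := hconst (pos e1) hpos1.1 hpos1.2
    have s2 := hconst (pos e2) hpos2.1 hpos2.2
    -- membership of `p`, `a`
    have pe1 : Bey W α h e1 (β (l + 1)) := nest hL he1' q1
    have ae1 : Bey W α h e1 (α (pos (j + 1) + 1)) := nest hL he1' a1
    have pe2 : ¬ Bey W α h e2 (β (l + 1)) := fun hb => q2 (nest hL he2 hb)
    have ae2 : ¬ Bey W α h e2 (α (pos (j + 1) + 1)) := fun hb => a2 (nest hL he2 hb)
    have k1 : k ≠ h e1 := by
      rintro rfl
      exact hk (bool_eq pe1 ae1)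
    have k2 : k ≠ h e2 := by
      rintro rfl
      unfold Bey at pe2 ae2
      rw [not_not] at pe2 ae2
      exact hk (pe2.trans ae2.symm)
    have c1 : W.side (h e1) (β 0) ≠ W.side (h e1) (β (l + 1)) := by
      have e3 : W.side (h e1) (β 0) = W.side (h e1) (α 0) := by
        by_contra hc
        exact b0 e1 he1 hc
      rw [e3]
      exact pe1.symm
    have c2 : W.side (h e2) (β (l + 1)) ≠ W.side (h e2) (β n) := by
      unfold Bey at pe2
      rw [not_not] at pe2
      rw [pe2]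
      exact (bn e2 he2').symm
    obtain ⟨l1, -, m2, -, -, m5⟩ := cross_edge β (h e1) (Nat.zero_le (l + 1)) c1
    obtain ⟨l2, m6, m7, -, -, m8⟩ := cross_edge β (h e2) hl1 c2
    have r1 : W.side k (α (pos e1)) = W.side k (β l1) := by
      by_contra hc
      exact hn1 (W.carrier (h e1) k _ _ _ _ (aadj hL (pos e1)) (hL.cross e1)
        (hβ.adj (by omega)) m5 k1 hc)
    have r2 : W.side k (α (pos e2)) = W.side k (β l2) := by
      by_contra hc
      exact hn2 (W.carrier (h e2) k _ _ _ _ (aadj hL (pos e2)) (hL.cross e2)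
        (hβ.adj (by omega)) m8 k2 hc)
    refine hβ.btw (show l1 ≤ l + 1 by omega) m6 (by omega) (k := k) ?_ ?_
    · rw [← r1, s1, ← hka]; exact Ne.symm hk
    · rw [← r2, s2, ← hka]; exact hk
  have hfin1 := hL.fin j
  have hfin2 := hL.fin (j + 2)
  have hfin3 := W.fin (α (pos j)) (α (pos (j + 3)))
  have n1 := Set.ncard_le_ncard hsub ((hfin1.union hfin2).union hfin3)
  have n2 := Set.ncard_union_le ({k | W.cr (h j) k ∧ W.cr (h (j + 1)) k} ∪
        {k | W.cr (h (j + 2)) k ∧ W.cr (h (j + 2 + 1)) k})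
        {k | W.side k (α (pos j)) ≠ W.side k (α (pos (j + 3)))}
  have n3 := Set.ncard_union_le {k | W.cr (h j) k ∧ W.cr (h (j + 1)) k}
        {k | W.cr (h (j + 2)) k ∧ W.cr (h (j + 2 + 1)) k}
  have n4 := hL.few j
  have n5 := hL.few (j + 2)
  rw [← W.dist_eq] at n1
  rw [← W.dist_eq, ageo hL (pos (j + 3)) (pos j) (pos (j + 3)) (by omega) le_rfl] at n2
  have g1 := hL.gap j
  have g2 := hL.gap (j + 1)
  have g3 := hL.gap (j + 2)
  have e1 : j + 1 + 1 = j + 2 := rfl
  have e2 : j + 2 + 1 = j + 3 := rfl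
  rw [e1] at g2
  rw [e2] at g3
  omega

theorem ladder_cross (hL : Ladder W D M α h pos) (β : ℕ → X) (hA : Asym W.G α β) (j : ℕ) :
    ∃ t, W.side (h j) (β t) ≠ W.side (h j) (α 0) := by
  obtain ⟨B, hB⟩ := hA
  refine ⟨pos (j + B) + 1, ?_⟩
  have h1 : ∃ i ≤ B, W.side (h (j + i)) (β (pos (j + B) + 1)) =
      W.side (h (j + i)) (α (pos (j + B) + 1)) := by
    by_contra hc
    push Not at hc
    have hsub : (Set.range fun i : Fin (B + 1) => h (j + i)) ⊆
        {k | W.side k (α (pos (j + B) + 1)) ≠ W.side k (β (pos (j + B) + 1))} := by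
      rintro _ ⟨i, rfl⟩
      exact (hc i (by omega)).symm
    have hinj : Function.Injective fun i : Fin (B + 1) => h (j + i) := by
      intro a b hab
      by_contra hne
      refine h_ne hL (i := j + a) (j := j + b) ?_ hab
      intro he
      apply hne
      apply Fin.ext
      omega
    have n1 := Set.ncard_le_ncard hsub (W.fin _ _)
    rw [← W.dist_eq, Set.ncard_range_of_injective hinj, Nat.card_eq_fintype_card,
      Fintype.card_fin] at n1
    have := (hB (pos (j + B) + 1)).1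
    omega
  obtain ⟨i, hi, h2⟩ := h1
  have h3 : Bey W α h (j + i) (β (pos (j + B) + 1)) := by
    unfold Bey
    rw [h2]
    apply L2 hL
    have := hL.mono.monotone (show j + i ≤ j + B by omega)
    omega
  exact nest hL (by omega) h3

/-- positions are coarsely dense -/
theorem pos_dense (hL : Ladder W D M α h pos) (t : ℕ) :
    ∃ j, t ≤ pos (j + 1) + 1 + (2 * D + 1) ∧ pos (j + 1) + 1 ≤ t + (2 * D + 1) := by
  have hp0 := hL.pos0
  have hp1 := hL.gap 0
  by_cases ht : t ≤ pos 1 + 1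
  · exact ⟨0, by simp only [zero_add]; omega, by simp only [zero_add] at hp1 ⊢; omega⟩
  · have hge : ∀ j, j ≤ pos j := fun j => hL.mono.le_apply
    obtain ⟨j, hj1, hj2⟩ : ∃ j, pos (j + 1) + 1 ≤ t ∧ t < pos (j + 2) + 1 := by
      by_contra hc
      push Not at hc
      have : ∀ j, pos (j + 1) + 1 ≤ t := by
        intro j
        induction j with
        | zero => simp only [zero_add]; omega
        | succ j ih => exact hc j ih
      have h1 := this t
      have h2 := hge (t + 1)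
      omega
    have := hL.gap (j + 1)
    have e1 : j + 1 + 1 = j + 2 := rfl
    rw [e1] at this
    exact ⟨j, by omega, by omega⟩

theorem ladder_close (hL : Ladder W D M α h pos) (β : ℕ → X) (hβ : IsGeodRay W.G (α 0) β)
    (hc : ∀ j, ∃ t, W.side (h j) (β t) ≠ W.side (h j) (α 0)) (t : ℕ) :
    W.G.dist (α t) (β t) ≤ 2 * (2 * M + 3 * D) + 2 * (2 * D + 1) := by
  obtain ⟨j, hj1, hj2⟩ := pos_dense hL t
  obtain ⟨n, hn⟩ := hc (j + 3)
  have hg : ∀ n, Geo W n β := by
    intro n i j hij _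
    have := hβ.2 i j
    rw [abs_sub_comm, abs_of_nonneg (by omega)] at this
    omega
  obtain ⟨i, hi, hd⟩ := quad hL (hg n) (j := j) (by rw [hβ.1]; exact fun h' => h' rfl) hn
  obtain ⟨s, hs⟩ : ∃ s, s = pos (j + 1) + 1 := ⟨_, rfl⟩
  rw [← hs] at hd hj1 hj2
  have e1 : W.G.dist (α 0) (α s) = s := ageo hL s 0 s (Nat.zero_le _) le_rfl
  have e2 : W.G.dist (β 0) (β i) = i := hg i 0 i (Nat.zero_le _) le_rfl
  rw [hβ.1] at e2
  have t1 := W.conn.dist_triangle (u := α 0) (v := α s) (w := β i)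
  have t2 := W.conn.dist_triangle (u := α 0) (v := β i) (w := α s)
  rw [W.G.dist_comm] at t1
  rw [W.G.dist_comm (u := α 0) (v := β i)] at e2
  rw [W.G.dist_comm (u := α s) (v := β i)] at t1
  have t3 := W.conn.dist_triangle (u := α t) (v := α s) (w := β t)
  have t4 := W.conn.dist_triangle (u := α s) (v := β i) (w := β t)
  have e3 : W.G.dist (α t) (α s) ≤ 2 * D + 1 := by
    rcases le_total t s with h1 | h1
    · rw [ageo hL s t s h1 le_rfl]; omega
    · rw [W.G.dist_comm, ageo hL t s t h1 le_rfl]; omega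
  have e4 : W.G.dist (β i) (β t) ≤ (2 * M + 3 * D) + (2 * D + 1) := by
    have t2' : W.G.dist (α 0) (α s) ≤ W.G.dist (α 0) (β i) + W.G.dist (β i) (α s) := t2
    rw [W.G.dist_comm (u := α 0) (v := β i)] at t2'
    rcases le_total i t with h1 | h1
    · rw [hg t i t h1 le_rfl]; omega
    · rw [W.G.dist_comm, hg i t i h1 le_rfl]; omega
  rw [W.G.dist_comm (u := α s) (v := β i)] at t4
  omega

/-- nearest points -/
theorem exists_near (W : WallStr X H) (α : ℕ → X) (x : X) :
    ∃ s, ∀ s', W.G.dist x (α s) ≤ W.G.dist x (α s') := by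
  have hex : ∃ d, ∃ s, W.G.dist x (α s) = d := ⟨_, 0, rfl⟩
  classical
  obtain ⟨s, hs⟩ := Nat.find_spec hex
  exact ⟨s, fun s' => by rw [hs]; exact Nat.find_min' hex ⟨s', rfl⟩⟩

/-- index of a nearest point -/
noncomputable def near (W : WallStr X H) (α : ℕ → X) (x : X) : ℕ := (exists_near W α x).choose

theorem near_le (W : WallStr X H) (α : ℕ → X) (x : X) (s' : ℕ) :
    W.G.dist x (α (near W α x)) ≤ W.G.dist x (α s') := (exists_near W α x).choose_spec s'

theorem adist (hL : Ladder W D M α h pos) {s t : ℕ} (hst : s ≤ t) :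
    W.G.dist (α s) (α t) = t - s := ageo hL t s t hst le_rfl

theorem claim1 (hL : Ladder W D M α h pos) {x : X} {s j : ℕ}
    (hs : ∀ s', W.G.dist x (α s) ≤ W.G.dist x (α s'))
    (hj : s + 2 * (2 * M + 3 * D) + 1 ≤ pos j) : ¬ Bey W α h (j + 3) x := by
  intro hb
  have p1 := hL.mono (show j < j + 1 by omega)
  obtain ⟨β, h0, h1, hβ⟩ := exists_geo (W := W) (α s) x
  obtain ⟨n, hn⟩ : ∃ n, n = W.G.dist (α s) x := ⟨_, rfl⟩
  rw [← hn] at hβ h1
  obtain ⟨i, hi, hd⟩ := quad hL hβ (j := j) (by rw [h0]; exact fun h' => h' (L1 hL (by omega)))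
    (by rw [h1]; exact hb)
  have e1 := hβ 0 i (Nat.zero_le _) hi
  have e2 := hβ i n hi le_rfl
  rw [h0] at e1
  rw [h1] at e2
  have e3 := adist hL (show s ≤ pos (j + 1) + 1 by omega)
  have t1 := W.conn.dist_triangle (u := α s) (v := β i) (w := α (pos (j + 1) + 1))
  have t2 := W.conn.dist_triangle (u := x) (v := β i) (w := α (pos (j + 1) + 1))
  rw [W.G.dist_comm (u := x) (v := β i)] at t2
  have t3 := hs (pos (j + 1) + 1)
  rw [W.G.dist_comm (u := x) (v := α s)] at t3
  omega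

theorem claim2 (hL : Ladder W D M α h pos) {x : X} {s j : ℕ}
    (hs : ∀ s', W.G.dist x (α s) ≤ W.G.dist x (α s'))
    (hj : pos (j + 3) + 2 * (2 * M + 3 * D) + 2 ≤ s) : Bey W α h j x := by
  by_contra hb
  have p1 := hL.mono (show j + 1 < j + 3 by omega)
  obtain ⟨β, h0, h1, hβ⟩ := exists_geo (W := W) x (α s)
  obtain ⟨n, hn⟩ : ∃ n, n = W.G.dist x (α s) := ⟨_, rfl⟩
  rw [← hn] at hβ h1
  obtain ⟨i, hi, hd⟩ := quad hL hβ (j := j) (by rw [h0]; exact hb)
    (by rw [h1]; exact L2 hL (by omega))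
  have e1 := hβ 0 i (Nat.zero_le _) hi
  have e2 := hβ i n hi le_rfl
  rw [h0] at e1
  rw [h1] at e2
  have e3 := adist hL (show pos (j + 1) + 1 ≤ s by omega)
  have t1 := W.conn.dist_triangle (u := α (pos (j + 1) + 1)) (v := β i) (w := α s)
  rw [W.G.dist_comm (u := α (pos (j + 1) + 1)) (v := β i)] at t1
  have t2 := W.conn.dist_triangle (u := x) (v := β i) (w := α (pos (j + 1) + 1))
  have t3 := hs (pos (j + 1) + 1)
  omega

theorem pos_find (hL : Ladder W D M α h pos) (t : ℕ) : ∃ j, t ≤ pos j ∧ pos j ≤ t + D := by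
  classical
  have hex : ∃ j, t ≤ pos j := ⟨t, hL.mono.le_apply⟩
  refine ⟨Nat.find hex, Nat.find_spec hex, ?_⟩
  rcases Nat.eq_zero_or_pos (Nat.find hex) with h0 | h0
  · rw [h0]
    have := hL.pos0
    omega
  · have h1 := Nat.find_min hex (show Nat.find hex - 1 < Nat.find hex by omega)
    have h2 := hL.gap (Nat.find hex - 1)
    rw [Nat.sub_add_cancel h0] at h2
    omega

theorem claim3 (hL : Ladder W D M α h pos) {x y : X} {s s' : ℕ}
    (hs : ∀ t, W.G.dist x (α s) ≤ W.G.dist x (α t))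
    (hs' : ∀ t, W.G.dist y (α s') ≤ W.G.dist y (α t))
    (hss : s + (4 * (2 * M + 3 * D) + 10 * D + 3) ≤ s') :
    W.G.dist x (α s) + W.G.dist y (α s') ≤ W.G.dist x y + 2 * (2 * M + 3 * D) := by
  obtain ⟨j, hj1, hj2⟩ := pos_find hL (s + 2 * (2 * M + 3 * D) + 1)
  have c1 := claim1 hL hs hj1
  have hpos : ∀ i, pos (j + i) ≤ pos j + i * D := by
    intro i
    induction i with
    | zero => simp
    | succ i ih =>
      have := hL.gap (j + i)
      have e : j + (i + 1) = j + i + 1 := rfl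
      rw [e, Nat.succ_mul]
      omega
  have h9 := hpos 9
  have c2 : Bey W α h (j + 6) y := claim2 hL hs' (j := j + 6) (by
    have e : j + 6 + 3 = j + 9 := rfl
    rw [e]
    omega)
  obtain ⟨β, h0, h1, hβ⟩ := exists_geo (W := W) x y
  obtain ⟨n, hn⟩ : ∃ n, n = W.G.dist x y := ⟨_, rfl⟩
  rw [← hn] at hβ h1
  obtain ⟨i, hi, hd⟩ := quad hL hβ (j := j + 3) (by rw [h0]; exact c1) (by rw [h1]; exact c2)
  have e1 := hβ 0 i (Nat.zero_le _) hi
  have e2 := hβ i n hi le_rfl
  rw [h0] at e1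
  rw [h1] at e2
  obtain ⟨p, hp⟩ : ∃ p, p = pos (j + 3 + 1) + 1 := ⟨_, rfl⟩
  rw [← hp] at hd
  have t1 := hs p
  have t2 := hs' p
  have t3 := W.conn.dist_triangle (u := x) (v := β i) (w := α p)
  have t4 := W.conn.dist_triangle (u := y) (v := β i) (w := α p)
  rw [W.G.dist_comm (u := y) (v := β i)] at t4
  omega

theorem claim4 (hL : Ladder W D M α h pos) {x y : X}
    (hd : W.G.dist x y + 2 * (2 * M + 3 * D) < W.G.dist x (α (near W α x))) :
    near W α y ≤ near W α x + (4 * (2 * M + 3 * D) + 10 * D + 3) ∧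
    near W α x ≤ near W α y + (4 * (2 * M + 3 * D) + 10 * D + 3) := by
  constructor
  · by_contra hc
    have := claim3 hL (near_le W α x) (near_le W α y) (by omega)
    omega
  · by_contra hc
    have := claim3 hL (near_le W α y) (near_le W α x) (by omega)
    rw [W.G.dist_comm (u := y) (v := x)] at this
    omega

/-- the Morse gauge -/
noncomputable def gauge (D M : ℕ) (K C : ℝ) : ℝ :=
  (K * ((⌈2 * K * ((4 * (2 * M + 3 * D) + 10 * D + 3 : ℕ) : ℝ)⌉₊ + 1 : ℕ) : ℝ) + C +
      2 * ((2 * M + 3 * D : ℕ) : ℝ) + 1) +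
    K * (2 * K * (2 * (K * ((⌈2 * K * ((4 * (2 * M + 3 * D) + 10 * D + 3 : ℕ) : ℝ)⌉₊ + 1 : ℕ) : ℝ)
      + C + 2 * ((2 * M + 3 * D : ℕ) : ℝ) + 1) +
      2 * ((4 * (2 * M + 3 * D) + 10 * D + 3 : ℕ) : ℝ) + C)) + C

theorem ladder_morse (hL : Ladder W D M α h pos) : IsMorse W.G (gauge D M) α := by
  intro K C hK hC n q hq h0 hn i hi
  obtain ⟨E, hE⟩ : ∃ E : ℕ, E = 2 * M + 3 * D := ⟨_, rfl⟩
  obtain ⟨B, hB⟩ : ∃ B : ℕ, B = 4 * (2 * M + 3 * D) + 10 * D + 3 := ⟨_, rfl⟩
  obtain ⟨m, hm⟩ : ∃ m : ℕ, m = ⌈2 * K * (B : ℝ)⌉₊ + 1 := ⟨_, rfl⟩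
  obtain ⟨R, hR⟩ : ∃ R : ℝ, R = K * (m : ℝ) + C + 2 * (E : ℝ) + 1 := ⟨_, rfl⟩
  have hg : gauge D M K C = R + K * (2 * K * (2 * R + 2 * (B : ℝ) + C)) + C := by
    unfold gauge
    rw [← hB, ← hE, ← hm, ← hR]
  rw [hg]
  have hE0 : (0 : ℝ) ≤ E := Nat.cast_nonneg _
  have hB0 : (0 : ℝ) ≤ B := Nat.cast_nonneg _
  have hm1 : (1 : ℝ) ≤ m := by rw [hm]; push_cast; linarith [Nat.cast_nonneg (α := ℝ) ⌈2 * K * (B : ℝ)⌉₊]
  have hmB : 2 * K * B ≤ m := by
    rw [hm]; push_cast
    have := Nat.le_ceil (2 * K * (B : ℝ))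
    linarith
  have hR0 : 0 ≤ R := by rw [hR]; nlinarith
  have hLmax : 0 ≤ 2 * K * (2 * R + 2 * (B : ℝ) + C) := by positivity
  refine ⟨near W α (q i), ?_⟩
  obtain ⟨f, hf⟩ : ∃ f : ℕ → ℕ, f = fun l => W.G.dist (q l) (α (near W α (q l))) := ⟨_, rfl⟩
  have hfl : ∀ l, W.G.dist (q l) (α (near W α (q l))) = f l := fun l => by rw [hf]
  rw [hfl]
  by_cases hfi : (f i : ℝ) ≤ R
  · nlinarith
  push Not at hfi
  have f0 : f 0 = 0 := by
    obtain ⟨a, ha⟩ := h0
    have := near_le W α (q 0) a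
    rw [hfl, ha, SimpleGraph.dist_self] at this
    omega
  have fn : f n = 0 := by
    obtain ⟨a, ha⟩ := hn
    have := near_le W α (q n) a
    rw [hfl, ha, SimpleGraph.dist_self] at this
    omega
  classical
  obtain ⟨a, hai, hfa, ha⟩ : ∃ a, a < i ∧ (f a : ℝ) ≤ R ∧ ∀ l, a < l → l ≤ i → R < f l := by
    have hspec := Nat.findGreatest_spec (P := fun l => (f l : ℝ) ≤ R) (Nat.zero_le i)
      (by rw [f0]; simpa using hR0)
    refine ⟨Nat.findGreatest (fun l => (f l : ℝ) ≤ R) i, ?_, hspec, ?_⟩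
    · rcases (Nat.findGreatest_le (P := fun l => (f l : ℝ) ≤ R) i).lt_or_eq with h1 | h1
      · exact h1
      · rw [h1] at hspec
        exact absurd hspec (not_le.mpr hfi)
    · intro l hl hli
      have := Nat.findGreatest_is_greatest hl hli
      exact not_le.mp this
  obtain ⟨b, hib, hbn, hfb, hb⟩ : ∃ b, i < b ∧ b ≤ n ∧ (f b : ℝ) ≤ R ∧
      ∀ l, i ≤ l → l < b → R < f l := by
    have hex : ∃ l, i ≤ l ∧ (f l : ℝ) ≤ R := ⟨n, hi, by rw [fn]; simpa using hR0⟩
    obtain ⟨h1, h2⟩ := Nat.find_spec hex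
    refine ⟨Nat.find hex, ?_, Nat.find_min' hex ⟨hi, by rw [fn]; simpa using hR0⟩, h2, ?_⟩
    · rcases h1.lt_or_eq with h3 | h3
      · exact h3
      · rw [← h3] at h2
        exact absurd h2 (not_le.mpr hfi)
    · intro l hl hlb
      have := Nat.find_min hex hlb
      simp only [hl, true_and, not_le] at this
      exact this
  have hint : ∀ l, a < l → l < b → R < f l := by
    intro l h1 h2
    rcases le_total l i with h3 | h3
    · exact ha l h1 h3
    · exact hb l h3 h2
  have hstep : ∀ l l', a < l → l < b → l' ≤ n → l' ≤ l + m → l ≤ l' + m →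
      |(near W α (q l) : ℝ) - near W α (q l')| ≤ B := by
    intro l l' h1 h2 h3 h4 h5
    have h6 := (hq l l' (by omega) h3).2
    have h7 : |(l : ℝ) - l'| ≤ m := by
      rw [abs_le]
      have h4' : (l' : ℝ) ≤ l + m := by exact_mod_cast h4
      have h5' : (l : ℝ) ≤ l' + m := by exact_mod_cast h5
      constructor <;> linarith
    have h8 : K * |(l : ℝ) - l'| ≤ K * m := mul_le_mul_of_nonneg_left h7 (by linarith)
    have h9 := hint l h1 h2
    have h10 : ((W.G.dist (q l) (q l') + 2 * E : ℕ) : ℝ) < (f l : ℝ) := by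
      push_cast
      linarith
    have h11 : W.G.dist (q l) (q l') + 2 * E < f l := by exact_mod_cast h10
    rw [hE, ← hfl] at h11
    obtain ⟨c1, c2⟩ := claim4 hL h11
    rw [← hB] at c1 c2
    have c1' : (near W α (q l') : ℝ) ≤ near W α (q l) + B := by exact_mod_cast c1
    have c2' : (near W α (q l) : ℝ) ≤ near W α (q l') + B := by exact_mod_cast c2
    rw [abs_le]
    constructor <;> linarith
  have hchain : ∀ k l, a + 1 ≤ l → l ≤ b → l ≤ a + 1 + k * m →
      |(near W α (q (a + 1)) : ℝ) - near W α (q l)| ≤ B * k := by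
    intro k
    induction k with
    | zero =>
      intro l h1 h2 h3
      have : l = a + 1 := by omega
      subst this
      simp
    | succ k ih =>
      intro l h1 h2 h3
      by_cases h4 : l ≤ a + 1 + k * m
      · have := ih l h1 h2 h4
        push_cast
        linarith
      · have h5 := ih (a + 1 + k * m) (by omega) (by omega) le_rfl
        have h6 := hstep (a + 1 + k * m) l (by omega) (by omega) (by omega)
          (by rw [Nat.succ_mul] at h3; omega) (by omega)
        have h7 := abs_sub_le (near W α (q (a + 1)) : ℝ) (near W α (q (a + 1 + k * m)))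
          (near W α (q l))
        push_cast
        linarith
  obtain ⟨k0, hk0⟩ : ∃ k0, k0 = (b - a) / m + 1 := ⟨_, rfl⟩
  have hmpos : 0 < m := by omega
  have hk1 : b ≤ a + 1 + k0 * m := by
    have := Nat.lt_div_mul_add (a := b - a) hmpos
    rw [hk0, Nat.succ_mul]
    omega
  have hlen : ((b - a : ℕ) : ℝ) = (b : ℝ) - a := by
    rw [Nat.cast_sub (by omega)]
  have hk2 : (k0 : ℝ) ≤ ((b : ℝ) - a) / m + 1 := by
    rw [hk0, ← hlen]
    push_cast
    have := Nat.cast_div_le (α := ℝ) (m := b - a) (n := m)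
    linarith
  have c1 := hchain k0 b (by omega) le_rfl hk1
  have c2 := hstep (a + 1) a (by omega) (by omega) (by omega) (by omega) (by omega)
  have c3 : |(near W α (q a) : ℝ) - near W α (q b)| ≤ B * (((b : ℝ) - a) / m + 2) := by
    have h7 := abs_sub_le (near W α (q a) : ℝ) (near W α (q (a + 1))) (near W α (q b))
    rw [abs_sub_comm] at c2
    have h8 : (B : ℝ) * k0 ≤ B * (((b : ℝ) - a) / m + 1) := mul_le_mul_of_nonneg_left hk2 hB0
    linarith
  have c4 : (W.G.dist (α (near W α (q a))) (α (near W α (q b))) : ℝ) =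
      |(near W α (q a) : ℝ) - near W α (q b)| := by
    have := hL.geod (near W α (q a)) (near W α (q b))
    exact_mod_cast congrArg (Int.cast : ℤ → ℝ) this
  have c5 : (W.G.dist (q a) (q b) : ℝ) ≤ f a + |(near W α (q a) : ℝ) - near W α (q b)| + f b := by
    rw [← c4, ← hfl, ← hfl]
    have t1 := W.conn.dist_triangle (u := q a) (v := α (near W α (q a))) (w := q b)
    have t2 := W.conn.dist_triangle (u := α (near W α (q a))) (v := α (near W α (q b)))
      (w := q b)
    rw [W.G.dist_comm (u := α (near W α (q b)))] at t2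
    have t3 : W.G.dist (q a) (q b) ≤ W.G.dist (q a) (α (near W α (q a))) +
      W.G.dist (α (near W α (q a))) (α (near W α (q b))) +
      W.G.dist (q b) (α (near W α (q b))) := by omega
    exact_mod_cast t3
  have c6 := (hq a b (by omega) hbn).1
  have hab : (a : ℝ) ≤ b := by exact_mod_cast (show a ≤ b by omega)
  rw [abs_sub_comm, abs_of_nonneg (by linarith)] at c6
  obtain ⟨len, hlen'⟩ : ∃ len : ℝ, len = (b : ℝ) - a := ⟨_, rfl⟩
  rw [← hlen'] at c6 c3
  have hlen0 : 0 ≤ len := by rw [hlen']; linarith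
  have hK0 : 0 < K := by linarith
  have c7 : (B : ℝ) * (len / m) ≤ len / (2 * K) := by
    rw [mul_div_assoc', div_le_div_iff₀ (by linarith) (by linarith)]
    nlinarith
  have c8 : len / K - len / (2 * K) = len / (2 * K) := by field_simp; ring
  have c9 : len / (2 * K) ≤ 2 * R + 2 * B + C := by nlinarith
  have c10 : len ≤ 2 * K * (2 * R + 2 * B + C) := by
    rw [div_le_iff₀ (by linarith)] at c9
    linarith
  have c11 := (hq i a hi (by omega)).2
  have hia : (a : ℝ) ≤ i := by exact_mod_cast hai.le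
  have hib' : (i : ℝ) ≤ b := by exact_mod_cast hib.le
  rw [abs_of_nonneg (by linarith)] at c11
  have c12 : (f i : ℝ) ≤ W.G.dist (q i) (q a) + f a := by
    have t1 := near_le W α (q i) (near W α (q a))
    have t2 := W.conn.dist_triangle (u := q i) (v := q a) (w := α (near W α (q a)))
    rw [hfl] at t1 t2
    exact_mod_cast t1.trans t2
  have c13 : K * ((i : ℝ) - a) ≤ K * (2 * K * (2 * R + 2 * B + C)) :=
    mul_le_mul_of_nonneg_left (by linarith) (by linarith)
  linarith

end ladder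

theorem st_B1 (X H : Type*) : ST_B1 X H :=
  fun _ D M => ⟨gauge D M, fun _ _ _ hL => ladder_morse hL⟩

theorem st_B2 (X H : Type*) : ST_B2 X H :=
  fun _ D M => ⟨2 * (2 * M + 3 * D) + 2 * (2 * D + 1), fun _ _ _ hL β hβ hc t =>
    ladder_close hL β hβ hc t⟩

theorem st_B3 (X H : Type*) : ST_B3 X H :=
  fun _ _ _ _ _ _ hL β _ hA j => ladder_cross hL β hA j

end Pool.Agent.Helper83.RC
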