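import Pool.Agent.Helper93.RC.Spec

set_option autoImplicit false

/-!
# Module P6: combining the ranges of the probability
-/

namespace Pool.Agent.Helper83.RC

open Pool.Agent.Helper93.RC Filter Topology

open scoped Classical in
theorem gnp_le_one (h0 : ST_P0a) (n : ℕ) {p : ℝ} (hp : 0 ≤ p) (hp1 : p ≤ 1)
    (A : Set (SimpleGraph (Fin n))) : gnp n p A ≤ 1 := by
  rw [← h0 n p]
  unfold gnp Ex wt
  apply Finset.sum_le_sum
  intro G _
  have h1 : 0 ≤ p ^ G.edgeSet.ncard * (1 - p) ^ (n.choose 2 - G.edgeSet.ncard) :=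
    mul_nonneg (pow_nonneg hp _) (pow_nonneg (by linarith) _)
  split_ifs
  · rw [mul_one]
  · rw [mul_one]; exact h1

theorem st_P6 (h0 : ST_P0a) (h2 : ST_P2) (h4 : ST_P4) (h5 : ST_P5) : ST_prob := by
  intro p ε hε hp1 hp2
  rw [Metric.tendsto_atTop']
  intro η hη
  obtain ⟨K, n2, H2⟩ := h2 ε (η / 2) hε (by linarith)
  obtain ⟨A, n4, H4⟩ := h4 K (η / 2) (by linarith)
  obtain ⟨n5, H5⟩ := h5 A (η / 2) (by linarith)
  rw [eventually_atTop] at hp1 hp2
  obtain ⟨a, ha⟩ := hp1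
  obtain ⟨b, hb⟩ := hp2
  refine ⟨max (max (max n2 n4) n5) (max a b), fun n hn => ?_⟩
  have e1 : n2 ≤ n := by omega
  have e2 : n4 ≤ n := by omega
  have e3 : n5 ≤ n := by omega
  have e4 : 0 < n := by omega
  have e5 : (0 : ℝ) < n := by exact_mod_cast e4
  have f1 := ha n (by omega)
  have f2 := hb n (by omega)
  have f3 : 0 < p n := lt_trans (by positivity) f1
  have f4 : p n < 1 := by linarith
  have f5 : 1 ≤ n * p n := by
    rw [div_lt_iff₀ e5] at f1
    linarith
  have key : 1 - gnp n (p n) {G | HasConf G} ≤ η / 2 := by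
    by_cases c1 : K ≤ n * p n ^ 2
    · exact H2 n (p n) e1 f3 f2 c1
    · by_cases c2 : A ≤ n * p n
      · exact H4 n (p n) e2 f3 f4 c2 (not_le.mp c1).le
      · exact H5 n (p n) e3 f3 f4 f5 (not_le.mp c2).le
  have up := gnp_le_one h0 n f3.le f4.le {G | HasConf G}
  rw [Real.dist_eq, abs_lt]
  constructor <;> linarith

end Pool.Agent.Helper83.RC
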